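import Pool.Agent.H654R5.PT.Stm

/-!
# `S_PPR`: the least prime is computable in unary in polynomial time
-/

namespace Pool.Agent.H654R5.PT.PPR

open Pool.Agent.NPC

theorem prime_test (M p : ℕ) (h : p ≤ M) :
    decide p.Prime = (decide (2 ≤ p) && (List.range M).all
      (fun d => decide (d < 2) || (decide (p ≤ d) || !decide (p % d = 0)))) := by
  rw [Bool.eq_iff_iff]
  simp only [decide_eq_true_eq, Bool.and_eq_true, List.all_eq_true, List.mem_range, Bool.or_eq_true,
    Bool.not_eq_true', decide_eq_false_iff_not]
  rw [Nat.prime_def_lt']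
  constructor
  · rintro ⟨h2, h3⟩
    refine ⟨h2, fun d hd => ?_⟩
    by_cases hd2 : d < 2
    · exact Or.inl hd2
    · by_cases hdp : p ≤ d
      · exact Or.inr (Or.inl hdp)
      · refine Or.inr (Or.inr ?_)
        intro h4
        exact h3 d (by omega) (by omega) (Nat.dvd_of_mod_eq_zero h4)
  · rintro ⟨h2, h3⟩
    refine ⟨h2, fun d hd2 hdp hdvd => ?_⟩
    rcases h3 d (by omega) with h4 | h4 | h4
    · omega
    · omega
    · exact h4 (Nat.mod_eq_zero_of_dvd hdvd)

theorem find?_congr_mem {β : Type} (l : List β) (p q : β → Bool) (h : ∀ x ∈ l, p x = q x) :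
    l.find? p = l.find? q := by
  induction l with
  | nil => rfl
  | cons x l ih =>
    rw [List.find?_cons, List.find?_cons, h x List.mem_cons_self,
      ih fun y hy => h y (List.mem_cons_of_mem _ hy)]

theorem PPR_proof : S_PPR := by
  intro α _ m hm
  have hmp := hm.toPoly
  have h1 := hm.range
  refine UPoly.of_le (n := fun a => m a + m a) ?_ (UPoly.add hm hm) ?_
  · have hT0 : Poly (fun q : (α × ℕ) × ℕ => (decide (q.2 < 2) || (decide (q.1.2 ≤ q.2) ||
        !decide (q.1.2 % q.2 = 0)))) := by fun_prop
    have hT1 : Poly (fun q : α × ℕ => (List.range (m q.1 + m q.1)).all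
        (fun d => decide (d < 2) || (decide (q.2 ≤ d) || !decide (q.2 % d = 0)))) :=
      Poly.all (l := fun q : α × ℕ => List.range (m q.1 + m q.1))
        (p := fun q d => (decide (d < 2) || (decide (q.2 ≤ d) || !decide (q.2 % d = 0))))
        (UPoly.comp (n := fun a => m a + m a) (UPoly.add hm hm) (Poly.fst Poly.id)).range hT0
    have hT2 : Poly (fun q : α × ℕ => decide (2 ≤ q.2)) := by fun_prop
    have hT3 : Poly (fun a => (List.range (m a)).map (fun i => m a + i)) :=
      NPC.Poly.map (F := fun a i => m a + i) h1 (by fun_prop)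
    have hT4 := NPC.Poly.filter (l := fun a => (List.range (m a)).map (fun i => m a + i))
      (p := fun a p => decide (2 ≤ p) && (List.range (m a + m a)).all
          (fun d => decide (d < 2) || (decide (p ≤ d) || !decide (p % d = 0)))) hT3 (Poly.and hT2 hT1)
    refine (Poly.head?_getD hT4 0).congr fun a => ?_
    unfold leastPrime
    rw [List.head?_filter]
    congr 1
    apply find?_congr_mem
    intro x hx
    rw [List.mem_map] at hx
    obtain ⟨i, hi, rfl⟩ := hx
    rw [List.mem_range] at hi
    exact (prime_test (m a + m a) (m a + i) (by omega)).symm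
  · intro a
    unfold leastPrime
    cases h : ((List.range (m a)).map (fun i => m a + i)).find? (fun p => decide (p.Prime)) with
    | none => exact Nat.zero_le _
    | some q =>
      have h3 := List.mem_of_find?_eq_some h
      rw [List.mem_map] at h3
      obtain ⟨i, hi, rfl⟩ := h3
      rw [List.mem_range] at hi
      change m a + i ≤ m a + m a
      omega

end Pool.Agent.H654R5.PT.PPR
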